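import Pool.Agent.Q158.GradedB

/-!
# The number of labelled graded orders with four grade levels
-/

set_option autoImplicit false

namespace Pool.Agent.Results.MP_ac85ec_co.FourLevels

open Q158.Graded

/-- For all large `m` and `n = 6m + 1` one has
`log₂ a₄(n) ≥ n²/4 + (5/4 + 1/200) n`. Hence `log₂ a₄(n) = n²/4 + 5n/4 + O(log n)` is false: for
every constant `C` there are arbitrarily large `n` with
`|log₂ a₄(n) - n²/4 - 5n/4| > C log n`. -/
theorem result :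
    (∃ m₀ : ℕ, ∀ m ≥ m₀, ((6 * m + 1 : ℕ) : ℝ) ^ 2 / 4 +
      (5 / 4 + 1 / 200) * ((6 * m + 1 : ℕ) : ℝ) ≤ Real.logb 2 (a 4 (6 * m + 1))) ∧
    (∀ (C : ℝ) (n₀ : ℕ), ∃ n ≥ n₀, C * Real.log n <
      |Real.logb 2 (a 4 n) - (n : ℝ) ^ 2 / 4 - 5 / 4 * n|) :=
  ⟨main_lower, main_neg⟩

end Pool.Agent.Results.MP_ac85ec_co.FourLevels
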